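import Pool.Agent.Helper470.DC.Final2
set_option autoImplicit false

namespace Pool.Agent.Results.MP_f50317_co.ExactMultFour

open DisjCyc

theorem result (k l : ℕ) (hk : 2 ≤ k) (hl : 2 ≤ l) :
    ∃ n0 : ℕ, ∀ q r : ℕ, r < (2 * k - 1) * (l - 1) + 1 →
      n0 ≤ (2 * k - 1) + q * ((2 * k - 1) * (l - 1) + 1) + r →
      maxEdges k ((2 * k - 1) + q * ((2 * k - 1) * (l - 1) + 1) + r) (4 * l) =
        q * ((2 * k - 1) * (l - 1) + 1) + r + (2 * k - 2) * q + ((r - 1) / (l - 1) - 1) := by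
  obtain ⟨n0, h⟩ := exact_value k (l - 1) hk (by omega)
  refine ⟨n0, fun q r hr hn => ?_⟩
  have h1 := h _ hn
  have e1 : 4 * (l - 1) + 4 = 4 * l := by omega
  generalize hv : (2 * k - 1) * (l - 1) + 1 = v at *
  have e2 : (2 * k - 1) + q * v + r - (2 * k - 1) = r + v * q := by
    have : q * v = v * q := mul_comm _ _
    omega
  have hv0 : 0 < v := by omega
  rw [e1, e2, Nat.add_mul_div_left _ _ hv0, Nat.div_eq_of_lt hr, Nat.add_mul_mod_self_left, Nat.mod_eq_of_lt hr,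
    zero_add] at h1
  rw [h1]
  have : q * v = v * q := mul_comm _ _
  omega

end Pool.Agent.Results.MP_f50317_co.ExactMultFour
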